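import Mathlib

set_option autoImplicit false

namespace Pool.Agent.Shared.H87W

open Polynomial Finset

variable {F : Type*} [Field F] [Fintype F]

theorem fin_monic (m : ℕ) : {f : F[X] | f.Monic ∧ f.natDegree = m}.Finite := by
  have e := (monicEquivDegreeLT (R := F) m).trans (degreeLTEquiv F m).toEquiv
  have : Finite {p : F[X] // p.Monic ∧ p.natDegree = m} := Finite.of_equiv _ e.symm
  exact Set.finite_coe_iff.mp this

/-- monic polynomials of degree `m` -/
noncomputable def Mo (F : Type*) [Field F] [Fintype F] (m : ℕ) : Finset F[X] :=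
  (fin_monic (F := F) m).toFinset

theorem mem_Mo {m : ℕ} {f : F[X]} : f ∈ Mo F m ↔ f.Monic ∧ f.natDegree = m := by
  simp [Mo]

open Classical in
/-- the field with `q ^ s` elements inside the algebraic closure -/
noncomputable def Ext (F : Type*) [Field F] [Fintype F] (s : ℕ) : Finset (AlgebraicClosure F) :=
  ((X ^ (Fintype.card F ^ s) - X : (AlgebraicClosure F)[X]).roots).toFinset

theorem mem_Ext {s : ℕ} (hs : 1 ≤ s) {x : AlgebraicClosure F} :
    x ∈ Ext F s ↔ x ^ (Fintype.card F ^ s) = x := by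
  have h := FiniteField.X_pow_card_pow_sub_X_ne_zero (AlgebraicClosure F) (n := s) (by omega)
    (Fintype.one_lt_card (α := F))
  simp only [Ext, Multiset.mem_toFinset, mem_roots h, IsRoot.def, eval_sub, eval_pow, eval_X,
    sub_eq_zero]

theorem card_Ext {s : ℕ} (hs : 1 ≤ s) : (Ext F s).card = Fintype.card F ^ s := by
  classical
  obtain ⟨p, hp⟩ := CharP.exists F
  obtain ⟨n, hpp, hn⟩ := FiniteField.card F p
  have : CharP (AlgebraicClosure F) p :=
    charP_of_injective_algebraMap (algebraMap F (AlgebraicClosure F)).injective p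
  have h1 : (X ^ (Fintype.card F ^ s) - X : (AlgebraicClosure F)[X]).Separable := by
    apply galois_poly_separable p
    rw [hn]
    exact dvd_pow (dvd_pow_self p n.ne_zero) (by omega)
  rw [Ext, Multiset.toFinset_card_of_nodup (nodup_roots h1),
    ← (IsAlgClosed.splits _).natDegree_eq_card_roots,
    FiniteField.X_pow_card_pow_sub_X_natDegree_eq _ (by omega) Fintype.one_lt_card]

omit [Fintype F] in
theorem isInt (x : AlgebraicClosure F) : IsIntegral F x := Algebra.IsIntegral.isIntegral x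

theorem mem_Ext_iff {s : ℕ} (hs : 1 ≤ s) {x : AlgebraicClosure F} :
    x ∈ Ext F s ↔ (minpoly F x).natDegree ∣ s := by
  rw [mem_Ext hs, (minpoly.irreducible (isInt x)).natDegree_dvd_iff_dvd_X_pow_card_pow_sub_X,
    minpoly.dvd_iff, Nat.card_eq_fintype_card]
  simp [sub_eq_zero]

theorem minpoly_pow_dvd (x : AlgebraicClosure F) (k : ℕ) : ∀ h : F[X],
    minpoly F x ^ k ∣ h ↔ (X - C x) ^ k ∣ h.map (algebraMap F (AlgebraicClosure F)) := by
  have hroot : IsRoot ((minpoly F x).map (algebraMap F (AlgebraicClosure F))) x := by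
    rw [IsRoot.def, eval_map_algebraMap, minpoly.aeval]
  obtain ⟨g, hg⟩ := dvd_iff_isRoot.mpr hroot
  have hsep : ((minpoly F x).map (algebraMap F (AlgebraicClosure F))).Separable :=
    Polynomial.Separable.map (Algebra.IsSeparable.isSeparable F x)
  have hcop : IsCoprime (X - C x) g := by
    rw [hg] at hsep
    exact hsep.isCoprime
  induction k with
  | zero => simp
  | succ k ih =>
    intro h
    constructor
    · rintro ⟨h', rfl⟩
      rw [Polynomial.map_mul, Polynomial.map_pow, hg, mul_pow, mul_assoc]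
      exact dvd_mul_right _ _
    · intro hd
      have h1 : (X - C x) ∣ h.map (algebraMap F (AlgebraicClosure F)) :=
        dvd_trans (dvd_pow_self _ (by omega)) hd
      rw [dvd_iff_isRoot, IsRoot.def, eval_map_algebraMap] at h1
      obtain ⟨h', rfl⟩ := minpoly.dvd F x h1
      rw [Polynomial.map_mul, hg, pow_succ', mul_assoc,
        mul_dvd_mul_iff_left (X_sub_C_ne_zero x)] at hd
      rw [pow_succ']
      exact mul_dvd_mul_left _ ((ih h').mpr (hcop.pow_left.dvd_of_dvd_mul_left hd))

/-- characteristic polynomial of `x` in the field with `q ^ s` elements -/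
noncomputable def ch (s : ℕ) (x : AlgebraicClosure F) : F[X] :=
  minpoly F x ^ (s / (minpoly F x).natDegree)

omit [Fintype F] in
theorem ch_monic (s : ℕ) (x : AlgebraicClosure F) : (ch s x).Monic :=
  (minpoly.monic (isInt x)).pow _

theorem ch_deg {s : ℕ} (hs : 1 ≤ s) {x : AlgebraicClosure F} (hx : x ∈ Ext F s) :
    (ch s x).natDegree = s := by
  rw [ch, natDegree_pow, Nat.div_mul_cancel ((mem_Ext_iff hs).mp hx)]

open Classical in
theorem count_div {n : ℕ} {h : F[X]} (hh : h ∈ Mo F n) :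
    ∑ s ∈ Icc 1 n, ((Ext F s).filter fun x => ch s x ∣ h).card = n := by
  obtain ⟨hm, hd⟩ := mem_Mo.mp hh
  set h' := h.map (algebraMap F (AlgebraicClosure F)) with hh'
  have h0 : h' ≠ 0 := (hm.map _).ne_zero
  have h1 : h'.roots.card = n := by
    rw [← (IsAlgClosed.splits _).natDegree_eq_card_roots, hh', natDegree_map, hd]
  have h2 : (h'.roots.toFinset.sigma fun x => Icc 1 (h'.roots.count x)).card = n := by
    rw [card_sigma, ← h1, ← Multiset.toFinset_sum_count_eq]; simp
  rw [← card_sigma]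
  refine Eq.trans (Eq.symm ?_) h2
  refine card_bij (fun u _ => ⟨u.2 * (minpoly F u.1).natDegree, u.1⟩) ?_ ?_ ?_
  · rintro ⟨x, k⟩ hu
    simp only [mem_sigma, mem_Icc, count_roots] at hu
    have hD := minpoly.natDegree_pos (isInt x)
    have h3 : minpoly F x ^ k ∣ h :=
      (minpoly_pow_dvd x k h).mpr ((le_rootMultiplicity_iff h0).mp hu.2.2)
    have h4 := natDegree_le_of_dvd h3 hm.ne_zero
    rw [natDegree_pow, hd] at h4
    have h5 : 1 ≤ k * (minpoly F x).natDegree := Nat.mul_pos hu.2.1 hD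
    simp only [mem_sigma, mem_Icc, mem_filter]
    refine ⟨⟨h5, h4⟩, (mem_Ext_iff h5).mpr (Dvd.intro_left _ rfl), ?_⟩
    rwa [ch, Nat.mul_div_cancel _ hD]
  · rintro ⟨x, k⟩ _ ⟨y, l⟩ _ he
    simp only [Sigma.mk.injEq, heq_eq_eq] at he
    obtain ⟨he1, rfl⟩ := he
    rw [Nat.eq_of_mul_eq_mul_right (minpoly.natDegree_pos (isInt x)) he1]
  · rintro ⟨s, x⟩ hu
    simp only [mem_sigma, mem_Icc, mem_filter] at hu
    obtain ⟨⟨hs1, hs2⟩, hx, hdv⟩ := hu
    have h3 := (mem_Ext_iff hs1).mp hx
    have hD := minpoly.natDegree_pos (isInt x)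
    have h4 : 1 ≤ s / (minpoly F x).natDegree := Nat.div_pos (Nat.le_of_dvd hs1 h3) hD
    have h5 := (le_rootMultiplicity_iff h0).mpr ((minpoly_pow_dvd x _ h).mp hdv)
    refine ⟨⟨x, s / (minpoly F x).natDegree⟩, ?_, ?_⟩
    · simp only [mem_sigma, mem_Icc, count_roots, Multiset.mem_toFinset]
      refine ⟨?_, h4, h5⟩
      rw [← Multiset.one_le_count_iff_mem, count_roots]
      omega
    · simp [Nat.div_mul_cancel h3]

open Classical in
theorem sum_div (lam : F[X] →* ℂ) {n s : ℕ} (hs : s ≤ n) {g : F[X]} (hg : g.Monic)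
    (hd : g.natDegree = s) :
    ∑ h ∈ (Mo F n).filter (fun h => g ∣ h), lam h = lam g * ∑ h ∈ Mo F (n - s), lam h := by
  rw [mul_sum]
  symm
  refine sum_bij (fun h _ => g * h) ?_ ?_ ?_ ?_
  · intro h hh
    obtain ⟨h1, h2⟩ := mem_Mo.mp hh
    refine mem_filter.mpr ⟨mem_Mo.mpr ⟨hg.mul h1, ?_⟩, dvd_mul_right _ _⟩
    rw [hg.natDegree_mul h1]; omega
  · intro h _ h' _ he
    exact mul_left_cancel₀ hg.ne_zero he
  · intro h hh
    obtain ⟨h1, h', rfl⟩ := mem_filter.mp hh
    obtain ⟨h2, h3⟩ := mem_Mo.mp h1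
    have h4 : h'.Monic := hg.of_mul_monic_left h2
    rw [hg.natDegree_mul h4] at h3
    exact ⟨h', mem_Mo.mpr ⟨h4, by omega⟩, rfl⟩
  · intro h _
    rw [map_mul]

/-- logarithmic derivative of the Euler product -/
theorem recur (lam : F[X] →* ℂ) (n : ℕ) :
    (n : ℂ) * ∑ h ∈ Mo F n, lam h =
      ∑ s ∈ Icc 1 n, (∑ x ∈ Ext F s, lam (ch s x)) * ∑ h ∈ Mo F (n - s), lam h := by
  classical
  calc (n : ℂ) * ∑ h ∈ Mo F n, lam h
      = ∑ h ∈ Mo F n, ∑ s ∈ Icc 1 n, ∑ x ∈ Ext F s, if ch s x ∣ h then lam h else 0 := by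
        rw [mul_sum]
        refine sum_congr rfl fun h hh => ?_
        conv_lhs => rw [← count_div hh]
        rw [Nat.cast_sum, sum_mul]
        refine sum_congr rfl fun s _ => ?_
        rw [← sum_filter, sum_const, nsmul_eq_mul]
    _ = ∑ s ∈ Icc 1 n, ∑ x ∈ Ext F s, ∑ h ∈ Mo F n, if ch s x ∣ h then lam h else 0 := by
        rw [sum_comm]
        exact sum_congr rfl fun s _ => sum_comm
    _ = _ := by
        refine sum_congr rfl fun s hs => ?_
        rw [sum_mul]
        refine sum_congr rfl fun x hx => ?_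
        obtain ⟨h1, h2⟩ := mem_Icc.mp hs
        rw [← sum_filter, sum_div lam h2 (ch_monic s x) (ch_deg h1 hx)]

theorem sum_Mo_zero (lam : F[X] →* ℂ) : ∑ h ∈ Mo F 0, lam h = 1 := by
  have : Mo F 0 = {1} := by
    ext h
    rw [mem_Mo, mem_singleton]
    exact ⟨fun hh => hh.1.natDegree_eq_zero.mp hh.2, fun hh => by simp [hh]⟩
  rw [this, sum_singleton, map_one]

theorem sum_Mo_one (lam : F[X] →* ℂ) : ∑ h ∈ Mo F 1, lam h = ∑ x : F, lam (X - C x) := by
  symm
  refine sum_bij (fun x _ => X - C x) ?_ ?_ ?_ ?_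
  · intro x _
    exact mem_Mo.mpr ⟨monic_X_sub_C x, natDegree_X_sub_C x⟩
  · intro x _ y _ he
    exact C_injective (sub_right_injective he)
  · intro h hh
    obtain ⟨h1, h2⟩ := mem_Mo.mp hh
    refine ⟨-h.coeff 0, mem_univ _, ?_⟩
    rw [h1.eq_X_add_C h2]
    simp
  · intro x _
    rfl

/-- the value of the characteristic polynomial at `a` is the norm of `a - x` -/
theorem ch_eval {s N : ℕ} (hs : 1 ≤ s) (hN : N * (Fintype.card F - 1) + 1 = Fintype.card F ^ s)
    {x : AlgebraicClosure F} (hx : x ∈ Ext F s) (a : F) :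
    algebraMap F (AlgebraicClosure F) ((ch s x).eval a) =
      (algebraMap F (AlgebraicClosure F) a - x) ^ N := by
  classical
  set q := Fintype.card F with hq
  have hq2 : 2 ≤ q := Fintype.one_lt_card
  obtain ⟨r, hr⟩ := (mem_Ext_iff hs).mp hx
  set D := (minpoly F x).natDegree with hD
  have hD0 : 0 < D := minpoly.natDegree_pos (isInt x)
  let pb := IntermediateField.adjoin.powerBasis (isInt x)
  have : FiniteDimensional F (IntermediateField.adjoin F {x}) := IntermediateField.adjoin.finiteDimensional (isInt x)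
  have : Finite (IntermediateField.adjoin F {x}) := Module.finite_of_finite F
  have h1 : Algebra.norm F (algebraMap F (IntermediateField.adjoin F {x}) a - pb.gen) = (minpoly F x).eval a := by
    rw [Algebra.norm_eq_matrix_det pb.basis, map_sub, ← IntermediateField.minpoly_gen F x]
    change _ = (minpoly F pb.gen).eval a
    rw [← charpoly_leftMulMatrix, Matrix.eval_charpoly, AlgHom.commutes]
    rfl
  have h2 := FiniteField.algebraMap_norm_eq_pow (K := F) (x := algebraMap F (IntermediateField.adjoin F {x}) a - pb.gen)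
  have h3 : Nat.card (IntermediateField.adjoin F {x}) = q ^ D := by
    rw [Module.natCard_eq_pow_finrank (K := F), IntermediateField.adjoin.finrank (isInt x),
      Nat.card_eq_fintype_card]
  rw [h1, h3, Nat.card_eq_fintype_card, ← hq] at h2
  have h4 := congrArg (algebraMap (IntermediateField.adjoin F {x}) (AlgebraicClosure F)) h2
  rw [← IsScalarTower.algebraMap_apply, map_pow, map_sub, ← IsScalarTower.algebraMap_apply] at h4
  have h5 : algebraMap (IntermediateField.adjoin F {x}) (AlgebraicClosure F) pb.gen = x := rfl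
  rw [h5] at h4
  have h6 : N = (q ^ D - 1) / (q - 1) * ∑ i ∈ range r, (q ^ D) ^ i := by
    have h7 : (q - 1) ∣ q ^ D - 1 := Nat.sub_one_dvd_pow_sub_one q D
    have h8 : 2 ≤ q ^ D := hq2.trans (Nat.le_self_pow (by omega) _)
    have h9 := Nat.geomSum_eq h8 r
    have h10 : (q ^ D - 1) ∣ (q ^ D) ^ r - 1 := Nat.sub_one_dvd_pow_sub_one _ r
    apply Nat.eq_of_mul_eq_mul_right (show 0 < q - 1 by omega)
    rw [mul_right_comm, Nat.div_mul_cancel h7, h9, Nat.mul_div_cancel' h10, ← pow_mul, ← hr]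
    omega
  rw [h6, pow_mul, ← h4, ← map_pow, ch, ← hD, hr, Nat.mul_div_cancel_left _ hD0, eval_pow,
    ← prod_pow_eq_pow_sum]
  congr 1
  rw [prod_congr rfl (g := fun _ => (minpoly F x).eval a), prod_const, card_range]
  intro i _
  rw [← pow_mul, hq, FiniteField.pow_card_pow]

end Pool.Agent.Shared.H87W
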