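import Mathlib

set_option autoImplicit false

namespace Pool.Agent.Shared.H87W

open Polynomial Finset

variable {K : Type*} [Field K]

theorem pow_dvd_hasse (f k : K[X]) (L : ℕ) : ∀ n, f ^ (L - n) ∣ hasseDeriv n (k * f ^ L) := by
  induction L with
  | zero => intro n; simp
  | succ L ih =>
    intro n
    rw [pow_succ, ← mul_assoc, hasseDeriv_mul]
    refine dvd_sum fun ab hab => ?_
    have h1 := mem_antidiagonal.mp hab
    rcases Nat.eq_zero_or_pos ab.2 with h | h
    · rw [h, hasseDeriv_zero']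
      refine dvd_trans (pow_dvd_pow f (show L + 1 - n ≤ L - ab.1 + 1 by omega)) ?_
      rw [pow_succ]
      exact mul_dvd_mul (ih _) dvd_rfl
    · exact dvd_trans (pow_dvd_pow f (show L + 1 - n ≤ L - ab.1 by omega))
        ((ih _).mul_right _)

/-- a multiple of `g` whose upper coefficients vanish is zero -/
theorem eq_zero_of_top {g P : K[X]} {B : ℕ} (hg : g ≠ 0) (hd : g ∣ P)
    (hB : P.natDegree ≤ g.natDegree + B) (h : ∀ s, s ≤ B → P.coeff (g.natDegree + s) = 0) :
    P = 0 := by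
  obtain ⟨q, rfl⟩ := hd
  by_contra hne
  have hq : q ≠ 0 := right_ne_zero_of_mul hne
  have h1 := natDegree_mul hg hq
  have h2 := h q.natDegree (by omega)
  rw [← h1] at h2
  exact hne (leadingCoeff_eq_zero.mp h2)

/-- terms with pairwise different orders at `a` are independent -/
theorem sum_ne_zero_of_mult {ι : Type*} [Fintype ι] (a : K) (T : ι → K[X]) (hT : ∀ i, T i ≠ 0)
    (hinj : Function.Injective fun i => rootMultiplicity a (T i)) (c : ι → K) (hc : c ≠ 0) :
    ∑ i, C (c i) * T i ≠ 0 := by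
  classical
  have hne : (univ.filter fun i => c i ≠ 0).Nonempty := by
    obtain ⟨i, hi⟩ := Function.ne_iff.mp hc
    exact ⟨i, by simpa using hi⟩
  obtain ⟨i, hi, hmin⟩ := exists_min_image _ (fun i => rootMultiplicity a (T i)) hne
  have hi' : c i ≠ 0 := by simpa using hi
  intro h0
  rw [← add_sum_erase _ _ (mem_univ i)] at h0
  have h1 : (X - C a) ^ (rootMultiplicity a (T i) + 1) ∣ ∑ j ∈ univ.erase i, C (c j) * T j := by
    refine dvd_sum fun j hj => ?_
    by_cases hcj : c j = 0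
    · simp [hcj]
    · refine Dvd.dvd.mul_left ((le_rootMultiplicity_iff (hT j)).mp ?_) _
      have h2 := hmin j (by simpa using hcj)
      have h3 : rootMultiplicity a (T i) ≠ rootMultiplicity a (T j) :=
        fun h => (ne_of_mem_erase hj) (hinj h).symm
      omega
  rw [← neg_eq_iff_add_eq_zero.mpr h0, dvd_neg] at h1
  have h4 : (X - C a) ^ (rootMultiplicity a (T i) + 1) ∣ T i := by
    have h5 := h1.mul_left (C (c i)⁻¹)
    rwa [← mul_assoc, ← C_mul, inv_mul_cancel₀ hi', C_1, one_mul] at h5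
  have := (le_rootMultiplicity_iff (hT i)).mpr h4
  omega

theorem mul_card_le {R : K[X]} (hR : R ≠ 0) (M : ℕ) (S : Finset K)
    (h : ∀ x ∈ S, (X - C x) ^ M ∣ R) : M * S.card ≤ R.natDegree := by
  classical
  have h1 : ∏ x ∈ S, (X - C x) ^ M ∣ R := by
    refine Finset.prod_dvd_of_coprime ?_ h
    intro x _ y _ hxy
    exact ((pairwise_coprime_X_sub_C (s := id) Function.injective_id) hxy).pow
  have h2 := natDegree_le_of_dvd h1 hR
  rw [natDegree_prod_of_monic _ _ (fun x _ => (monic_X_sub_C x).pow M)] at h2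
  simpa [natDegree_pow, mul_comm] using h2

theorem taylor_coeff_frob {Q : ℕ} (hfrob : ∀ u v : K[X], (u + v) ^ Q = u ^ Q + v ^ Q)
    {a x : K} (hx : (x - a) ^ Q = x - a) (B : K[X]) (j n : ℕ) (hn : n < Q) :
    ((B * (X - C a) ^ (Q * j)).comp (X + C x)).coeff n =
      (x - a) ^ j * (hasseDeriv n B).eval x := by
  have h1 : ((X - C a) ^ (Q * j) : K[X]).comp (X + C x) = (X ^ Q + C (x - a)) ^ j := by
    rw [pow_comp, sub_comp, X_comp, C_comp, pow_mul, add_sub_assoc, ← C_sub, hfrob, ← C_pow, hx]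
  obtain ⟨g, hg⟩ := sub_dvd_pow_sub_pow (X ^ Q + C (x - a) : K[X]) (C (x - a)) j
  rw [add_sub_cancel_right, sub_eq_iff_eq_add] at hg
  rw [mul_comp, h1, hg, mul_add, coeff_add, ← C_pow, coeff_mul_C, ← taylor_apply, taylor_coeff,
    mul_left_comm, coeff_X_pow_mul', if_neg (by omega), zero_add, mul_comm]

/-- Stepanov's auxiliary polynomial, for `f` with a simple root -/
theorem stepanov (f : K[X]) (hf : f ≠ 0) (a : K) (ha : rootMultiplicity a f = 1)
    (Q N d M J : ℕ) (hQ : N * d + 1 = Q)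
    (hfrob : ∀ u v : K[X], (u + v) ^ Q = u ^ Q + v ^ Q)
    (ζ : K) (hζ : ζ ≠ 0) (S : Finset K)
    (hS : ∀ x ∈ S, (x - a) ^ Q = x - a ∧ (f.eval x) ^ N = ζ) (hM : M ≤ Q)
    (hcount : M * (J + N + M * f.natDegree + 1) < N * (d * (J + 1))) :
    M * S.card ≤ N + (M + d * N) * f.natDegree + Q * J := by
  classical
  set m := f.natDegree with hm
  set Y : K[X] := X - C a with hY
  have hY0 : Y ≠ 0 := X_sub_C_ne_zero a
  have hYd : Y.natDegree = 1 := natDegree_X_sub_C a
  let B : ℕ → ℕ → K[X] := fun t i => Y ^ t * f ^ (M + i * N)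
  have hBd : ∀ t i, (B t i).natDegree = t + (M + i * N) * m := by
    intro t i
    simp only [B]
    rw [natDegree_mul (pow_ne_zero _ hY0) (pow_ne_zero _ hf), natDegree_pow, natDegree_pow, hYd,
      mul_one]
  let ι := Fin N × Fin d × Fin (J + 1)
  let P : ℕ → ι → K[X] := fun n u =>
    C (ζ ^ (u.2.1 : ℕ)) * Y ^ (u.2.2 : ℕ) * f ^ ((d - 1 - u.2.1) * N) *
      hasseDeriv n (B u.1 u.2.1)
  let w : ι → (Fin M × Fin (J + N + M * m + 1) → K) := fun u ns =>
    (P ns.1 u).coeff ((d - 1) * N * m + ns.2)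
  have hdep : ¬ LinearIndependent K w := by
    intro h
    have := h.fintype_card_le_finrank
    simp only [ι, Fintype.card_prod, Fintype.card_fin, Module.finrank_fintype_fun_eq_card] at this
    omega
  obtain ⟨c, hc1, hc2⟩ := Fintype.not_linearIndependent_iff.mp hdep
  have hc : c ≠ 0 := Function.ne_iff.mpr hc2
  have hPsi : ∀ n, n < M → ∑ u, C (c u) * P n u = 0 := by
    intro n hn
    refine eq_zero_of_top (g := f ^ ((d - 1) * N)) (B := J + N + M * m) (pow_ne_zero _ hf) ?_ ?_ ?_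
    · refine dvd_sum fun u _ => Dvd.dvd.mul_left ?_ _
      simp only [P]
      rw [mul_assoc]
      refine Dvd.dvd.mul_left ?_ _
      refine dvd_trans (pow_dvd_pow f ?_) (by
        rw [pow_add]; exact mul_dvd_mul_left _ (pow_dvd_hasse f _ (M + u.2.1 * N) n))
      have h1 : (u.2.1 : ℕ) < d := u.2.1.2
      have h2 : (d - 1) * N = (d - 1 - u.2.1) * N + u.2.1 * N := by
        rw [← add_mul]; congr 1; omega
      omega
    · rw [natDegree_pow]
      refine natDegree_sum_le_of_forall_le _ _ fun u _ => (natDegree_C_mul_le _ _).trans ?_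
      simp only [P]
      have h1 : (u.2.1 : ℕ) < d := u.2.1.2
      have h2 : (d - 1) * N = (d - 1 - u.2.1) * N + u.2.1 * N := by
        rw [← add_mul]; congr 1; omega
      have h3 : (u.1 : ℕ) < N := u.1.2
      have h4 : (u.2.2 : ℕ) < J + 1 := u.2.2.2
      have h5 := (natDegree_hasseDeriv_le (B u.1 u.2.1) n).trans (Nat.sub_le _ _)
      rw [hBd] at h5
      have h6 : (C (ζ ^ (u.2.1 : ℕ)) * Y ^ (u.2.2 : ℕ)).natDegree ≤ u.2.2 := by
        refine (natDegree_C_mul_le _ _).trans ?_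
        rw [natDegree_pow, hYd, mul_one]
      refine natDegree_mul_le.trans ?_
      refine (add_le_add (natDegree_mul_le.trans (add_le_add h6 (natDegree_pow _ _).le)) h5).trans ?_
      rw [h2, ← hm]
      nlinarith
    · intro s hs
      have h1 := congrFun hc1 (⟨n, hn⟩, ⟨s, by omega⟩)
      rw [natDegree_pow, finsetSum_coeff]
      simpa [w, Finset.sum_apply] using h1
  let T : ι → K[X] := fun u => B u.1 u.2.1 * Y ^ (Q * u.2.2)
  have hT0 : ∀ u, T u ≠ 0 := fun u =>
    mul_ne_zero (mul_ne_zero (pow_ne_zero _ hY0) (pow_ne_zero _ hf)) (pow_ne_zero _ hY0)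
  have hfp : ∀ n, rootMultiplicity a (f ^ n) = n := by
    intro n
    induction n with
    | zero => simp
    | succ n ih => rw [pow_succ, rootMultiplicity_mul (mul_ne_zero (pow_ne_zero _ hf) hf), ih, ha]
  have hTm : ∀ u : ι, rootMultiplicity a (T u) = u.1 + (M + u.2.1 * N) + Q * u.2.2 := by
    intro u
    rw [rootMultiplicity_mul (hT0 u),
      rootMultiplicity_mul (mul_ne_zero (pow_ne_zero _ hY0) (pow_ne_zero _ hf)), hfp, hY,
      rootMultiplicity_X_sub_C_pow, rootMultiplicity_X_sub_C_pow]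
  have hinj : Function.Injective fun u => rootMultiplicity a (T u) := by
    rintro ⟨⟨t, ht⟩, ⟨i, hi⟩, ⟨j, hj⟩⟩ ⟨⟨t', ht'⟩, ⟨i', hi'⟩, ⟨j', hj'⟩⟩ h
    simp only [hTm] at h
    have hb : ∀ t i, t < N → i < d → t + i * N < Q := by
      intro t i ht hi
      have : (i + 1) * N ≤ d * N := Nat.mul_le_mul_right _ hi
      nlinarith
    have h1 : (t + i * N) + Q * j = (t' + i' * N) + Q * j' := by omega
    have hQ0 : 0 < Q := by omega
    have h2 : j = j' := by
      have := congrArg (· / Q) h1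
      simpa [Nat.add_mul_div_left _ _ hQ0, Nat.div_eq_of_lt (hb t i ht hi),
        Nat.div_eq_of_lt (hb t' i' ht' hi')] using this
    subst h2
    have h3 : t + i * N = t' + i' * N := by omega
    have hN0 : 0 < N := by omega
    have h4 : i = i' := by
      have := congrArg (· / N) h3
      simpa [Nat.add_mul_div_right _ _ hN0, Nat.div_eq_of_lt ht, Nat.div_eq_of_lt ht'] using this
    subst h4
    have h5 : t = t' := by omega
    subst h5
    rfl
  have hR := sum_ne_zero_of_mult a T hT0 hinj c hc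
  refine (mul_card_le hR M S fun x hx => ?_).trans ?_
  · rw [X_sub_C_pow_dvd_iff, X_pow_dvd_iff]
    intro n hn
    obtain ⟨hx1, hx2⟩ := hS x hx
    have h1 := congrArg (eval x) (hPsi n hn)
    rw [eval_finsetSum, eval_zero] at h1
    rw [Polynomial.sum_comp, finsetSum_coeff]
    refine mul_left_cancel₀ (pow_ne_zero (d - 1) hζ) ?_
    rw [mul_zero, ← h1, mul_sum]
    refine sum_congr rfl fun u _ => ?_
    rw [mul_comp, C_comp, coeff_C_mul]
    simp only [T, P]
    rw [hY, taylor_coeff_frob hfrob hx1 _ _ _ (by omega)]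
    have h2 : (u.2.1 : ℕ) < d := u.2.1.2
    have h3 : ζ ^ (d - 1) = ζ ^ (u.2.1 : ℕ) * ζ ^ (d - 1 - u.2.1) := by
      rw [← pow_add]; congr 1; omega
    simp only [eval_mul, eval_C, eval_pow, eval_sub, eval_X]
    rw [mul_comm (d - 1 - u.2.1) N, pow_mul, hx2, h3]
    ring
  · refine natDegree_sum_le_of_forall_le _ _ fun u _ => (natDegree_C_mul_le _ _).trans ?_
    simp only [T]
    refine natDegree_mul_le.trans ?_
    rw [hBd, natDegree_pow, hYd]
    have h1 : (u.2.1 : ℕ) ≤ d := u.2.1.2.le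
    have h3 : (u.1 : ℕ) ≤ N := u.1.2.le
    have h4 : (u.2.2 : ℕ) ≤ J := Nat.lt_succ_iff.mp u.2.2.2
    rw [mul_one]
    gcongr

/-- numerical form: `#S ≤ Q / d + c √Q` -/
theorem stepanov_real (f : K[X]) (hf : f ≠ 0) (a : K) (ha : rootMultiplicity a f = 1)
    (Q N d : ℕ) (hQ : N * d + 1 = Q) (hd : 0 < d)
    (hfrob : ∀ u v : K[X], (u + v) ^ Q = u ^ Q + v ^ Q)
    (ζ : K) (hζ : ζ ≠ 0) (S : Finset K)
    (hS : ∀ x ∈ S, (x - a) ^ Q = x - a ∧ (f.eval x) ^ N = ζ)
    (hbig : (f.natDegree + 4) ^ 2 < Q) :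
    (S.card : ℝ) ≤ Q / d + (6 * f.natDegree + 8) * Real.sqrt Q := by
  set m := f.natDegree with hm
  set M := Nat.sqrt (Q - 1) with hM
  have hM1 : M * M ≤ Q - 1 := Nat.sqrt_le _
  have hM2 : Q - 1 < (M + 1) * (M + 1) := Nat.lt_succ_sqrt _
  have hM3 : m + 4 ≤ M := by
    rw [hM, Nat.le_sqrt']; omega
  have hMQ : M ≤ Q := by nlinarith [Nat.sub_le Q 1]
  have hdiv : M < d * (M / d + 1) := Nat.lt_mul_div_succ M hd
  have hdiv2 : d * (M / d) ≤ M := Nat.mul_div_le M d
  have hdiv3 : M / d ≤ M := Nat.div_le_self _ _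
  have hNd : N * d = Q - 1 := by omega
  have h := stepanov f hf a ha Q N d M (M / d + (m + 3)) hQ hfrob ζ hζ S hS hMQ (by
    rw [← hm]
    have h1 : N * (d * (M / d + (m + 3) + 1)) = N * (d * (M / d + 1)) + (m + 3) * (N * d) := by ring
    have h2 : N * M ≤ N * (d * (M / d + 1)) := Nat.mul_le_mul_left _ hdiv.le
    have h3 : M * (M / d + (m + 3) + N + M * m + 1) =
      N * M + (M * (M / d) + M * (m + 4) + m * (M * M)) := by ring
    have h4 : M * (M / d) ≤ M * M := Nat.mul_le_mul_left _ hdiv3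
    have h5 : M * (m + 4) ≤ M * M := Nat.mul_le_mul_left _ hM3
    have h6 : m * (M * M) ≤ m * (Q - 1) := Nat.mul_le_mul_left _ hM1
    have h7 : 0 < M * M := Nat.mul_pos (by omega) (by omega)
    rw [h1, h3, hNd]
    nlinarith)
  rw [← hm] at h
  have hN : N ≤ Q := by nlinarith
  have hdN : d * N ≤ Q := by nlinarith
  have h2 : M * S.card ≤ (3 * m + 4) * Q + Q * (M / d) := by
    have h3 : (M + d * N) * m ≤ (Q + Q) * m := Nat.mul_le_mul_right _ (by omega)
    nlinarith
  have hMp : (0 : ℝ) < M := by exact_mod_cast (show 0 < M by omega)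
  have hdp : (0 : ℝ) < d := by exact_mod_cast hd
  have h3 : (M : ℝ) * S.card ≤ (3 * m + 4) * Q + Q * (M / d) := by
    have h4 : ((M / d : ℕ) : ℝ) ≤ (M : ℝ) / d := Nat.cast_div_le
    have h5 : (M : ℝ) * S.card ≤ (3 * m + 4) * Q + Q * ((M / d : ℕ) : ℝ) := by exact_mod_cast h2
    have h6 : (Q : ℝ) * ((M / d : ℕ) : ℝ) ≤ Q * (M / d) := by gcongr
    linarith
  have h4 : Real.sqrt Q ≤ 2 * M := by
    rw [Real.sqrt_le_left (by positivity)]
    have : Q ≤ (2 * M) ^ 2 := by nlinarith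
    exact_mod_cast this
  have h5 : (Q : ℝ) ≤ 2 * M * Real.sqrt Q := by
    conv_lhs => rw [← Real.mul_self_sqrt (Nat.cast_nonneg Q)]
    gcongr
  refine le_of_mul_le_mul_left ?_ hMp
  have h6 : (3 * m + 4 : ℝ) * Q ≤ (3 * m + 4) * (2 * M * Real.sqrt Q) := by gcongr
  calc _ ≤ _ := h3
    _ ≤ (3 * m + 4) * (2 * M * Real.sqrt Q) + Q * (M / d) := by linarith
    _ = _ := by ring

end Pool.Agent.Shared.H87W
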