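import Pool.Agent.Shared.H87W.Pow
import Pool.Agent.Shared.H87W.Step
import Pool.Agent.Shared.H87W.Rec

set_option autoImplicit false

namespace Pool.Agent.Shared.H87W

open Polynomial Finset

variable {F : Type*} [Field F] [Fintype F] {ι : Type*} [Fintype ι]

/-- the character of monic polynomials attached to the sum -/
noncomputable def lamW (χ : MulChar F ℂ) (a : ι → F) (e : ι → ℕ) : F[X] →* ℂ where
  toFun h := χ (∏ j, (h.eval (a j)) ^ e j)
  map_one' := by simp
  map_mul' g h := by simp [mul_pow, prod_mul_distrib]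

omit [Fintype F] in
theorem lamW_apply (χ : MulChar F ℂ) (a : ι → F) (e : ι → ℕ) (h : F[X]) :
    lamW χ a e h = χ (∏ j, (h.eval (a j)) ^ e j) := rfl

theorem sum_Mo_vanish (χ : MulChar F ℂ) (a : ι → F) (ha : Function.Injective a) (e : ι → ℕ)
    (j0 : ι) (hχ : χ ^ e j0 ≠ 1) (he : e j0 ≠ 0) {n : ℕ} (hn : Fintype.card ι ≤ n) :
    ∑ h ∈ Mo F n, lamW χ a e h = 0 := by
  classical
  obtain ⟨u, hu⟩ := MulChar.ne_one_iff.mp hχ
  rw [MulChar.pow_apply' _ he] at hu
  set l : F[X] := Lagrange.basis univ a j0 with hl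
  have hl1 : l.eval (a j0) = 1 := Lagrange.eval_basis_self ha.injOn (mem_univ _)
  have hl2 : ∀ j, j ≠ j0 → l.eval (a j) = 0 := fun j hj =>
    Lagrange.eval_basis_of_ne hj.symm (mem_univ _)
  have hl3 : l.natDegree < n := by
    rw [hl, Lagrange.natDegree_basis ha.injOn (mem_univ _), card_univ]
    have : 0 < Fintype.card ι := Fintype.card_pos_iff.mpr ⟨j0⟩
    omega
  let φ : Fˣ → F[X] → F[X] := fun v h => h + C (((v : F) - 1) * h.eval (a j0)) * l
  have hφ1 : ∀ v h, (φ v h).eval (a j0) = v * h.eval (a j0) := by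
    intro v h
    simp only [φ, eval_add, eval_mul, eval_C, hl1]
    ring
  have hφ2 : ∀ v h j, j ≠ j0 → (φ v h).eval (a j) = h.eval (a j) := by
    intro v h j hj
    simp [φ, hl2 j hj]
  have hφ3 : ∀ v, ∀ h ∈ Mo F n, φ v h ∈ Mo F n := by
    intro v h hh
    obtain ⟨h1, h2⟩ := mem_Mo.mp hh
    have h3 : (C (((v : F) - 1) * h.eval (a j0)) * l).natDegree < h.natDegree :=
      (natDegree_C_mul_le _ _).trans_lt (h2 ▸ hl3)
    exact mem_Mo.mpr ⟨h1.add_of_left (degree_lt_degree h3),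
      (natDegree_add_eq_left_of_natDegree_lt h3).trans h2⟩
  have hφ4 : ∀ v h, φ v⁻¹ (φ v h) = h := by
    intro v h
    have h1 := hφ1 v h
    simp only [φ] at h1 ⊢
    rw [h1, add_assoc, ← add_mul, ← C_add]
    have : ((v : F) - 1) * h.eval (a j0) + (((v⁻¹ : Fˣ) : F) - 1) * (v * h.eval (a j0)) = 0 := by
      have h2 : ((v⁻¹ : Fˣ) : F) * v = 1 := Units.inv_mul v
      linear_combination (h.eval (a j0)) * h2
    rw [this, C_0, zero_mul, add_zero]
  have h1 : ∑ h ∈ Mo F n, lamW χ a e (φ u h) = ∑ h ∈ Mo F n, lamW χ a e h := by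
    refine sum_nbij' (φ u) (φ u⁻¹) (hφ3 u) (hφ3 u⁻¹) (fun h _ => hφ4 u h) (fun h _ => ?_)
      (fun _ _ => rfl)
    simpa using hφ4 u⁻¹ h
  have h2 : ∀ h, lamW χ a e (φ u h) = χ u ^ e j0 * lamW χ a e h := by
    intro h
    rw [lamW_apply, lamW_apply, ← map_pow, ← map_mul, ← mul_prod_erase _ _ (mem_univ j0),
      ← mul_prod_erase _ _ (mem_univ j0), hφ1, mul_pow, mul_assoc]
    congr 3
    exact prod_congr rfl fun j hj => by rw [hφ2 u h j (ne_of_mem_erase hj)]
  simp_rw [h2] at h1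
  rw [← mul_sum] at h1
  have h3 : (χ u ^ e j0 - 1) * ∑ h ∈ Mo F n, lamW χ a e h = 0 := by linear_combination h1
  exact (mul_eq_zero.mp h3).resolve_left (sub_ne_zero.mpr hu)

theorem norm_chi_le (χ : MulChar F ℂ) (x : F) : ‖χ x‖ ≤ 1 := by
  rcases eq_or_ne x 0 with rfl | hx
  · rw [MulChar.map_zero, norm_zero]; exact zero_le_one
  · have h1 : χ x ^ (Fintype.card F - 1) = 1 := by
      rw [← map_pow, FiniteField.pow_card_sub_one_eq_one x hx, map_one]
    have h2 : 1 < Fintype.card F := Fintype.one_lt_card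
    exact (Complex.norm_eq_one_of_pow_eq_one h1 (by omega)).le

/-- upper bounds for all fibres bound a character sum -/
theorem fibre_bound {α : Type*} (χ : MulChar F ℂ) (hχ : χ ≠ 1) (E : Finset α) (ν : α → F)
    (U : ℝ) [DecidableEq F] (hU : ∀ ζ, ζ ≠ 0 → ((E.filter fun x => ν x = ζ).card : ℝ) ≤ U) :
    ‖∑ x ∈ E, χ (ν x)‖ ≤
      (Fintype.card F - 1) * U - E.card + (E.filter fun x => ν x = 0).card := by
  set n : F → ℕ := fun ζ => (E.filter fun x => ν x = ζ).card with hn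
  have h1 : ∑ x ∈ E, χ (ν x) = ∑ ζ, (n ζ : ℂ) * χ ζ := by
    rw [← sum_fiberwise E ν]
    refine sum_congr rfl fun ζ _ => ?_
    rw [sum_congr rfl (g := fun _ => χ ζ) fun x hx => by rw [(mem_filter.mp hx).2], sum_const,
      nsmul_eq_mul]
  have h2 : E.card = ∑ ζ, n ζ := card_eq_sum_card_fiberwise fun _ _ => mem_univ _
  have h3 : ∑ ζ, (n ζ : ℂ) * χ ζ = ∑ ζ ∈ univ.erase 0, ((n ζ : ℂ) - U) * χ ζ := by
    have h4 := MulChar.sum_eq_zero_of_ne_one hχ
    rw [← add_sum_erase _ _ (mem_univ (0 : F))] at h4 ⊢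
    simp only [sub_mul, sum_sub_distrib, ← mul_sum]
    rw [MulChar.map_zero, zero_add] at h4
    rw [h4, MulChar.map_zero]
    ring
  rw [h1, h3]
  refine (norm_sum_le _ _).trans ?_
  have h5 : ∑ ζ ∈ univ.erase (0 : F), ‖((n ζ : ℂ) - U) * χ ζ‖ ≤
      ∑ ζ ∈ univ.erase (0 : F), (U - n ζ) := by
    refine sum_le_sum fun ζ hζ => ?_
    have h6 := hU ζ (ne_of_mem_erase hζ)
    have h7 : ‖(n ζ : ℂ) - U‖ = U - n ζ := by
      rw [norm_sub_rev, ← Complex.ofReal_natCast, ← Complex.ofReal_sub, Complex.norm_real,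
        Real.norm_of_nonneg (sub_nonneg.mpr h6)]
    rw [norm_mul, h7]
    exact mul_le_of_le_one_right (sub_nonneg.mpr h6) (norm_chi_le χ ζ)
  refine h5.trans (le_of_eq ?_)
  rw [sum_sub_distrib, sum_const, card_erase_of_mem (mem_univ _), card_univ, nsmul_eq_mul, h2,
    ← add_sum_erase _ _ (mem_univ (0 : F)), Nat.cast_sub Fintype.card_pos]
  push_cast
  ring

theorem frob_ext (s : ℕ) (u v : (AlgebraicClosure F)[X]) :
    (u + v) ^ (Fintype.card F ^ s) = u ^ (Fintype.card F ^ s) + v ^ (Fintype.card F ^ s) := by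
  obtain ⟨p, hp⟩ := CharP.exists F
  obtain ⟨n, hpp, hn⟩ := FiniteField.card F p
  have : CharP (AlgebraicClosure F) p :=
    charP_of_injective_algebraMap (algebraMap F (AlgebraicClosure F)).injective p
  have := Fact.mk hpp
  rw [hn, ← pow_mul, add_pow_char_pow]

theorem sum_Ext_bound (χ : MulChar F ℂ) (hχ : χ ≠ 1) (a : ι → F) (ha : Function.Injective a)
    (e : ι → ℕ) (j0 : ι) (h1 : e j0 = 1) :
    ∃ (B : ℝ) (s0 : ℕ), ∀ s, s0 ≤ s →
      ‖∑ x ∈ Ext F s, lamW χ a e (ch s x)‖ ≤ B * Real.sqrt (Fintype.card F) ^ s := by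
  classical
  set q := Fintype.card F with hq
  have hq2 : 2 ≤ q := Fintype.one_lt_card
  set A := algebraMap F (AlgebraicClosure F) with hA
  set f : (AlgebraicClosure F)[X] := ∏ j, (C (A (a j)) - X) ^ e j with hf
  have hne : ∀ j, (C (A (a j)) - X : (AlgebraicClosure F)[X]) ≠ 0 := by
    intro j
    rw [← neg_ne_zero, neg_sub]
    exact X_sub_C_ne_zero _
  have hf0 : f ≠ 0 := prod_ne_zero_iff.mpr fun j _ => pow_ne_zero _ (hne j)
  have hmult : rootMultiplicity (A (a j0)) f = 1 := by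
    have h2 : f = (X - C (A (a j0))) ^ 1 * (-∏ j ∈ univ.erase j0, (C (A (a j)) - X) ^ e j) := by
      rw [hf, ← mul_prod_erase _ _ (mem_univ j0), h1]
      ring
    have h3 := hf0
    rw [h2] at h3 ⊢
    rw [rootMultiplicity_mul h3, rootMultiplicity_X_sub_C_pow, rootMultiplicity_eq_zero]
    rw [IsRoot.def, eval_neg, neg_eq_zero, eval_prod, prod_eq_zero_iff]
    rintro ⟨j, hj, h4⟩
    rw [eval_pow, eval_sub, eval_C, eval_X] at h4
    exact ne_of_mem_erase hj (ha (A.injective (sub_eq_zero.mp (eq_zero_of_pow_eq_zero h4))))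
  refine ⟨(q - 1) * (6 * f.natDegree + 8) + f.natDegree, (f.natDegree + 4) ^ 2 + 1, ?_⟩
  intro s hs
  have hs1 : 1 ≤ s := by omega
  have hbig : (f.natDegree + 4) ^ 2 < q ^ s := by
    have := Nat.lt_pow_self (n := s) (show 1 < q by omega)
    omega
  obtain ⟨N, hN⟩ : (q - 1) ∣ q ^ s - 1 := Nat.sub_one_dvd_pow_sub_one q s
  have hN' : N * (q - 1) + 1 = q ^ s := by
    rw [mul_comm, ← hN]; omega
  have hN0 : N ≠ 0 := by
    rintro rfl
    have : 0 < (f.natDegree + 4) ^ 2 := by positivity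
    omega
  let ν : AlgebraicClosure F → F := fun x => ∏ j, ((ch s x).eval (a j)) ^ e j
  have hν : ∀ x ∈ Ext F s, A (ν x) = (f.eval x) ^ N := by
    intro x hx
    rw [map_prod, hf, eval_prod, ← prod_pow]
    refine prod_congr rfl fun j _ => ?_
    rw [map_pow, ch_eval hs1 hN' hx, eval_pow, eval_sub, eval_C, eval_X, pow_right_comm]
  have h2 := fibre_bound χ hχ (Ext F s) ν
    ((q ^ s : ℕ) / (q - 1 : ℕ) + (6 * f.natDegree + 8) * Real.sqrt (q ^ s : ℕ)) (fun ζ hζ => by
      refine stepanov_real f hf0 (A (a j0)) hmult (q ^ s) N (q - 1) hN' (by omega) (frob_ext s)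
        (A ζ) ((map_ne_zero A).mpr hζ) _ (fun x hx => ?_) hbig
      obtain ⟨hx1, hx2⟩ := mem_filter.mp hx
      refine ⟨?_, by rw [← hν x hx1, hx2]⟩
      have h3 := congrArg (eval 0) (frob_ext s (C (x - A (a j0))) (C (A (a j0))))
      simp only [eval_pow, eval_add, eval_C, sub_add_cancel] at h3
      rw [(mem_Ext hs1).mp hx1, ← map_pow, FiniteField.pow_card_pow] at h3
      exact (eq_sub_of_add_eq h3.symm))
  have h3 : ((Ext F s).filter fun x => ν x = 0).card ≤ f.natDegree := by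
    refine le_trans (card_le_card ?_) ((Multiset.toFinset_card_le _).trans (card_roots' f))
    intro x hx
    obtain ⟨hx1, hx2⟩ := mem_filter.mp hx
    have h4 := hν x hx1
    rw [hx2, map_zero] at h4
    exact Multiset.mem_toFinset.mpr ((mem_roots hf0).mpr ((pow_eq_zero_iff hN0).mp h4.symm))
  have h4 : Real.sqrt (q ^ s : ℕ) = Real.sqrt q ^ s := by
    rw [Nat.cast_pow, Real.sqrt_eq_iff_mul_self_eq (by positivity) (by positivity), ← mul_pow,
      Real.mul_self_sqrt (Nat.cast_nonneg _)]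
  have h5 : (1 : ℝ) ≤ Real.sqrt q ^ s := by
    apply one_le_pow₀
    rw [Real.one_le_sqrt]
    exact_mod_cast (by omega : 1 ≤ q)
  have h6 : ((q - 1 : ℕ) : ℝ) = q - 1 := by rw [Nat.cast_sub (by omega)]; simp
  have h7 : (0 : ℝ) < q - 1 := by rw [← h6]; exact_mod_cast (by omega : 0 < q - 1)
  rw [card_Ext hs1, ← hq, h4, h6, mul_add, mul_div_cancel₀ _ h7.ne'] at h2
  refine le_trans h2 ?_
  have h8 : (((Ext F s).filter fun x => ν x = 0).card : ℝ) ≤ f.natDegree := by exact_mod_cast h3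
  have h9 : (f.natDegree : ℝ) ≤ f.natDegree * Real.sqrt q ^ s :=
    le_mul_of_one_le_right (Nat.cast_nonneg _) h5
  nlinarith

/-- Weil's bound, for a split polynomial with a simple root -/
theorem weil (χ : MulChar F ℂ) (hχ : χ ≠ 1) (a : ι → F) (ha : Function.Injective a)
    (e : ι → ℕ) (j0 : ι) (h1 : e j0 = 1) :
    ‖∑ x : F, χ (∏ j, (x - a j) ^ e j)‖ ≤
      ((Fintype.card ι : ℝ) - 1) * Real.sqrt (Fintype.card F) := by
  have ha' : Function.Injective fun j => -a j := fun i j h => ha (neg_injective h)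
  obtain ⟨B, s0, hB⟩ := sum_Ext_bound χ hχ _ ha' e j0 h1
  have h2 := engine (fun n => ∑ h ∈ Mo F n, lamW χ (fun j => -a j) e h) _ (Fintype.card ι)
    (sum_Mo_zero _) (fun n hn => sum_Mo_vanish χ _ ha' e j0 (by rwa [h1, pow_one]) (by omega) hn)
    (recur _) B _ (Real.sqrt_pos.mpr (by exact_mod_cast Fintype.card_pos)) s0 hB
  rw [sum_Mo_one, ← Equiv.sum_comp (Equiv.neg F)] at h2
  convert h2 using 3 with x
  rw [lamW_apply]
  congr 1
  refine prod_congr rfl fun j _ => ?_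
  simp only [Equiv.neg_apply, eval_sub, eval_X, eval_C]
  ring

/-- the same with repeated roots allowed, one root being simple -/
theorem weil_multi (χ : MulChar F ℂ) (hχ : χ ≠ 1) (t : ι → F) (w : ι → ℕ) (k0 : ι)
    (h1 : w k0 = 1) (ht : ∀ k, k ≠ k0 → t k ≠ t k0) :
    ‖∑ x : F, χ (∏ k, (x - t k) ^ w k)‖ ≤
      ((Fintype.card ι : ℝ) - 1) * Real.sqrt (Fintype.card F) := by
  classical
  have h2 := weil (ι := (univ.image t : Finset F)) χ hχ (fun y => (y : F)) Subtype.val_injective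
    (fun y => ∑ k ∈ univ.filter (fun k => t k = y), w k) ⟨t k0, mem_image_of_mem t (mem_univ _)⟩
    (by
      rw [sum_eq_single k0, h1]
      · intro k hk hne
        exact absurd (mem_filter.mp hk).2 (ht k hne)
      · simp)
  have h3 : ∀ x : F, ∏ y : (univ.image t : Finset F),
      (x - (y : F)) ^ (∑ k ∈ univ.filter (fun k => t k = y), w k) = ∏ k, (x - t k) ^ w k := by
    intro x
    rw [prod_coe_sort (univ.image t)
      (fun y => (x - y) ^ (∑ k ∈ univ.filter (fun k => t k = y), w k)),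
      ← prod_fiberwise_of_maps_to (s := univ) (t := univ.image t) (g := t)
        (fun k hk => mem_image_of_mem t hk)]
    refine prod_congr rfl fun y _ => ?_
    rw [← prod_pow_eq_pow_sum]
    exact prod_congr rfl fun k hk => by rw [(mem_filter.mp hk).2]
  simp_rw [h3] at h2
  refine h2.trans ?_
  have h4 : (Fintype.card (univ.image t : Finset F) : ℝ) ≤ Fintype.card ι := by
    rw [Fintype.card_coe]
    exact_mod_cast card_image_le
  gcongr

theorem conj_chi (χ : MulChar F ℂ) (hχ : χ ≠ 1) (y : F) :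
    (starRingEnd ℂ) (χ y) = χ (y ^ (Fintype.card F - 2)) := by
  have hq : 1 < Fintype.card F := Fintype.one_lt_card
  have hq3 : Fintype.card F ≠ 2 := by
    intro h
    obtain ⟨u, hu⟩ := MulChar.ne_one_iff.mp hχ
    have h1 := FiniteField.pow_card_sub_one_eq_one (u : F) u.ne_zero
    rw [h, show 2 - 1 = 1 from rfl, pow_one] at h1
    exact hu (by rw [h1, map_one])
  rcases eq_or_ne y 0 with rfl | hy
  · rw [zero_pow (by omega), MulChar.map_zero, map_zero]
  · have h1 : χ y * χ (y ^ (Fintype.card F - 2)) = 1 := by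
      rw [← map_mul, ← pow_succ', show Fintype.card F - 2 + 1 = Fintype.card F - 1 by omega,
        FiniteField.pow_card_sub_one_eq_one y hy, map_one]
    have h2 : χ y ^ (Fintype.card F - 1) = 1 := by
      rw [← map_pow, FiniteField.pow_card_sub_one_eq_one y hy, map_one]
    rw [← Complex.inv_eq_conj (Complex.norm_eq_one_of_pow_eq_one h2 (by omega))]
    exact inv_eq_of_mul_eq_one_right h1

theorem weil_burgess_aux (χ : MulChar F ℂ) (hχ : χ ≠ 1) (b c : ι → F) (k0 : ι)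
    (hb : ∀ k, k ≠ k0 → b k ≠ b k0) (hc : ∀ k, c k ≠ b k0) :
    ‖∑ x : F, (∏ k, χ (x + b k)) * ∏ k, (starRingEnd ℂ) (χ (x + c k))‖ ≤
      (2 * (Fintype.card ι : ℝ) - 1) * Real.sqrt (Fintype.card F) := by
  have h := weil_multi (ι := ι ⊕ ι) χ hχ (Sum.elim (fun k => -b k) (fun k => -c k))
    (Sum.elim (fun _ => 1) (fun _ => Fintype.card F - 2)) (Sum.inl k0) rfl (by
      rintro (k | k) hk
      · simpa using hb k (fun h => hk (by rw [h]))
      · simpa using hc k)
  rw [Fintype.card_sum, Nat.cast_add, ← two_mul] at h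
  convert h using 3 with x
  rw [Fintype.prod_sum_type, map_mul, map_prod, map_prod]
  simp [conj_chi χ hχ]

/-- the complete sums of Burgess' method: one of the `2 r` shifts differs from all others -/
theorem weil_burgess (χ : MulChar F ℂ) (hχ : χ ≠ 1) (b c : ι → F)
    (h : (∃ k0, (∀ k, k ≠ k0 → b k ≠ b k0) ∧ ∀ k, c k ≠ b k0) ∨
      (∃ k0, (∀ k, k ≠ k0 → c k ≠ c k0) ∧ ∀ k, b k ≠ c k0)) :
    ‖∑ x : F, (∏ k, χ (x + b k)) * ∏ k, (starRingEnd ℂ) (χ (x + c k))‖ ≤
      (2 * (Fintype.card ι : ℝ) - 1) * Real.sqrt (Fintype.card F) := by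
  rcases h with ⟨k0, h1, h2⟩ | ⟨k0, h1, h2⟩
  · exact weil_burgess_aux χ hχ b c k0 h1 h2
  · refine le_trans (le_of_eq ?_) (weil_burgess_aux χ hχ c b k0 h1 h2)
    rw [← Complex.norm_conj, map_sum]
    congr 1
    refine sum_congr rfl fun x _ => ?_
    simp [mul_comm]

end Pool.Agent.Shared.H87W
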