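import Mathlib

set_option autoImplicit false

namespace Pool.Agent.Shared.H87W

open Polynomial Finset

/-- a bound for all large power sums bounds every term -/
theorem pow_sum_bound (W : Multiset ℂ) (C R : ℝ) (hR : 0 < R) (s0 : ℕ)
    (h : ∀ s, s0 ≤ s → ‖(W.map (fun w => w ^ s)).sum‖ ≤ C * R ^ s) :
    ∀ z ∈ W, ‖z‖ ≤ R := by
  classical
  intro z hz
  by_contra hlt
  push Not at hlt
  set G : ℂ[X] := ∏ w ∈ W.toFinset.erase z, (X - Polynomial.C w) with hG
  have hGz : G.eval z ≠ 0 := by
    rw [hG, eval_prod]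
    refine prod_ne_zero_iff.mpr fun w hw => ?_
    simpa [sub_eq_zero] using (ne_of_mem_erase hw).symm
  have hGw : ∀ w ∈ W, w ≠ z → G.eval w = 0 := by
    intro w hw hne
    rw [hG, eval_prod]
    exact prod_eq_zero (mem_erase.mpr ⟨hne, Multiset.mem_toFinset.mpr hw⟩) (by simp)
  have key : ∀ s, (W.count z : ℂ) * (z ^ s * G.eval z) =
      ∑ k ∈ range (G.natDegree + 1), G.coeff k * (W.map (fun w => w ^ (s + k))).sum := by
    intro s
    have h1 : (W.map (fun w => w ^ s * G.eval w)).sum = (W.count z : ℂ) * (z ^ s * G.eval z) := by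
      rw [Finset.sum_multiset_map_count, Finset.sum_eq_single z]
      · simp
      · intro w hw hne
        simp [hGw w (Multiset.mem_toFinset.mp hw) hne]
      · intro hn
        exact absurd (Multiset.mem_toFinset.mpr hz) hn
    rw [← h1]
    simp_rw [← Multiset.sum_map_mul_left]
    rw [← Multiset.sum_map_sum]
    congr 1
    refine Multiset.map_congr rfl fun w _ => ?_
    rw [eval_eq_sum_range, mul_sum]
    exact sum_congr rfl fun k _ => by rw [pow_add]; ring
  set C' : ℝ := ∑ k ∈ range (G.natDegree + 1), ‖G.coeff k‖ * (C * R ^ k) with hC'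
  have hb : ∀ s, s0 ≤ s → ‖G.eval z‖ * (‖z‖ / R) ^ s ≤ C' := by
    intro s hs
    have h1 : ‖(W.count z : ℂ) * (z ^ s * G.eval z)‖ ≤ C' * R ^ s := by
      rw [key, hC', sum_mul]
      refine (norm_sum_le _ _).trans (sum_le_sum fun k _ => ?_)
      rw [norm_mul]
      have := h (s + k) (by omega)
      calc _ ≤ ‖G.coeff k‖ * (C * R ^ (s + k)) := by gcongr
        _ = _ := by rw [pow_add]; ring
    have hc : (1 : ℝ) ≤ W.count z := by exact_mod_cast Multiset.one_le_count_iff_mem.mpr hz
    rw [norm_mul, norm_mul, norm_pow, Complex.norm_natCast] at h1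
    rw [div_pow, mul_div_assoc', div_le_iff₀ (pow_pos hR s)]
    have h0 : 0 ≤ ‖z‖ ^ s * ‖G.eval z‖ := by positivity
    nlinarith
  have h1 : 1 < ‖z‖ / R := (one_lt_div hR).mpr hlt
  have ht := (tendsto_pow_atTop_atTop_of_one_lt h1).const_mul_atTop (norm_pos_iff.mpr hGz)
  obtain ⟨s, hs1, hs2⟩ := ((ht.eventually_gt_atTop C').and (Filter.eventually_ge_atTop s0)).exists
  exact absurd (hb s hs2) (not_le.mpr hs1)

/-- the series `- ∑ r⁻¹ ^ s X ^ s` -/
noncomputable def logSer (W : Multiset ℂ) : PowerSeries ℂ :=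
  PowerSeries.mk fun s => if s = 0 then 0 else -(W.map (fun r => r⁻¹ ^ s)).sum

theorem logSer_cons (r : ℂ) (W : Multiset ℂ) :
    logSer (r ::ₘ W) = logSer {r} + logSer W := by
  ext s
  simp only [logSer, PowerSeries.coeff_mk, map_add]
  split_ifs <;> simp; ring

theorem logSer_single {r : ℂ} (hr : r ≠ 0) :
    (PowerSeries.X - PowerSeries.C r) * logSer {r} = PowerSeries.X := by
  ext s
  rw [sub_mul, map_sub, PowerSeries.coeff_C_mul]
  rcases s with _ | s
  · simp [logSer]
  · rw [PowerSeries.coeff_succ_X_mul]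
    rcases s with _ | s
    · simp [logSer, hr]
    · simp only [logSer, PowerSeries.coeff_mk, PowerSeries.coeff_X]
      simp only [Nat.add_eq_zero_iff, one_ne_zero, and_false, if_false, Multiset.map_singleton,
        Multiset.sum_singleton]
      rw [if_neg (by omega)]
      have h : r * r⁻¹ = 1 := mul_inv_cancel₀ hr
      linear_combination (r⁻¹ ^ (s + 1)) * h

theorem newton (W : Multiset ℂ) (hW : ∀ r ∈ W, r ≠ 0) :
    PowerSeries.X * ((derivative (W.map (fun r => X - C r)).prod : ℂ[X]) : PowerSeries ℂ) =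
      (((W.map (fun r => X - C r)).prod : ℂ[X]) : PowerSeries ℂ) * logSer W := by
  induction W using Multiset.induction_on with
  | empty =>
    ext s
    simp [logSer]
  | cons r W ih =>
    have h1 := ih fun x hx => hW x (Multiset.mem_cons_of_mem hx)
    have h2 := logSer_single (hW r (Multiset.mem_cons_self _ _))
    rw [Multiset.map_cons, Multiset.prod_cons, derivative_mul, logSer_cons]
    simp only [derivative_sub, derivative_X, derivative_C, sub_zero, one_mul, Polynomial.coe_add,
      Polynomial.coe_mul, Polynomial.coe_sub, Polynomial.coe_X, Polynomial.coe_C]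
    linear_combination (PowerSeries.X - PowerSeries.C r) * h1 -
      (((W.map (fun r => X - C r)).prod : ℂ[X]) : PowerSeries ℂ) * h2

/-- the abstract `L`-polynomial argument -/
theorem engine (c S : ℕ → ℂ) (m : ℕ) (hc0 : c 0 = 1) (hc : ∀ n, m ≤ n → c n = 0)
    (hrec : ∀ n : ℕ, (n : ℂ) * c n = ∑ s ∈ Icc 1 n, S s * c (n - s))
    (C R : ℝ) (hR : 0 < R) (s0 : ℕ) (hS : ∀ s, s0 ≤ s → ‖S s‖ ≤ C * R ^ s) :
    ‖c 1‖ ≤ ((m : ℝ) - 1) * R := by
  classical
  have hm : 1 ≤ m := by
    by_contra h
    have := hc 0 (by omega)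
    rw [hc0] at this
    exact one_ne_zero this
  set L : ℂ[X] := ∑ n ∈ range m, monomial n (c n) with hL
  have hco : ∀ n, L.coeff n = c n := by
    intro n
    rw [hL, finsetSum_coeff]
    simp only [coeff_monomial, sum_ite_eq', mem_range]
    split_ifs with h
    · rfl
    · exact (hc n (by omega)).symm
  have hdeg : L.natDegree ≤ m - 1 := by
    rw [natDegree_le_iff_coeff_eq_zero]
    intro N hN
    rw [hco]
    exact hc N (by omega)
  have hL0 : L ≠ 0 := by
    intro h
    have := hco 0
    rw [h, hc0] at this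
    simp at this
  have hroots : ∀ r ∈ L.roots, r ≠ 0 := by
    intro r hr h0
    have h1 := (mem_roots hL0).mp hr
    rw [h0, IsRoot.def, ← coeff_zero_eq_eval_zero, hco, hc0] at h1
    exact one_ne_zero h1
  have hsp := (IsAlgClosed.splits L).eq_prod_roots
  have h1 : PowerSeries.X * ((derivative L : ℂ[X]) : PowerSeries ℂ) =
      (L : PowerSeries ℂ) * logSer L.roots := by
    have h2 := newton L.roots hroots
    conv_lhs => rw [hsp]
    conv_rhs => lhs; rw [hsp]
    rw [derivative_C_mul]
    simp only [Polynomial.coe_mul, Polynomial.coe_C]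
    linear_combination (PowerSeries.C L.leadingCoeff) * h2
  have h3 : PowerSeries.X * ((derivative L : ℂ[X]) : PowerSeries ℂ) =
      (L : PowerSeries ℂ) * PowerSeries.mk (fun s => if s = 0 then 0 else S s) := by
    ext n
    rw [mul_comm (L : PowerSeries ℂ), PowerSeries.coeff_mul n (PowerSeries.mk _),
      Finset.Nat.sum_antidiagonal_eq_sum_range_succ_mk]
    have h4 : ∑ k ∈ range n.succ, PowerSeries.coeff k
        (PowerSeries.mk (fun s => if s = 0 then 0 else S s)) *
          PowerSeries.coeff (n - k) (L : PowerSeries ℂ) = ∑ s ∈ Icc 1 n, S s * c (n - s) := by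
      symm
      refine sum_subset_zero_on_sdiff ?_ ?_ ?_
      · intro k hk
        rw [mem_Icc] at hk
        exact mem_range.mpr (by omega)
      · intro k hk
        rw [mem_sdiff, mem_range, mem_Icc] at hk
        have : k = 0 := by omega
        simp [this]
      · intro k hk
        rw [mem_Icc] at hk
        rw [PowerSeries.coeff_mk, if_neg (by omega), Polynomial.coeff_coe, hco]
    rw [h4, ← hrec]
    rcases n with _ | n
    · simp
    · rw [PowerSeries.coeff_succ_X_mul, Polynomial.coeff_coe, coeff_derivative, hco]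
      push_cast; ring
  have hLne : (L : PowerSeries ℂ) ≠ 0 := by
    rwa [Ne, Polynomial.coe_eq_zero_iff]
  have h5 := mul_left_cancel₀ hLne (h1.symm.trans h3)
  have h6 : ∀ s, 1 ≤ s → S s = -((L.roots.map (fun r => r⁻¹)).map (fun w => w ^ s)).sum := by
    intro s hs
    have := congrArg (PowerSeries.coeff s) h5
    simp only [logSer, PowerSeries.coeff_mk] at this
    rw [if_neg (by omega), if_neg (by omega)] at this
    rw [← this, Multiset.map_map]
    rfl
  have h7 := pow_sum_bound (L.roots.map (fun r => r⁻¹)) C R hR (max s0 1) (fun s hs => by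
    rw [← norm_neg, ← h6 s (le_of_max_le_right hs)]
    exact hS s (le_of_max_le_left hs))
  have h8 : c 1 = S 1 := by
    have := hrec 1
    simpa [hc0] using this
  rw [h8, h6 1 le_rfl, norm_neg]
  simp only [pow_one, Multiset.map_id']
  refine (norm_multiset_sum_le _).trans ?_
  have h9 := Multiset.sum_le_card_nsmul ((L.roots.map (fun r => r⁻¹)).map fun x => ‖x‖) R
    (fun x hx => by
      obtain ⟨y, hy, rfl⟩ := Multiset.mem_map.mp hx
      exact h7 y hy)
  refine h9.trans ?_
  rw [Multiset.card_map, Multiset.card_map, nsmul_eq_mul]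
  have h10 : (L.roots.card : ℝ) ≤ (m : ℝ) - 1 := by
    have := (card_roots' L).trans hdeg
    have h11 : ((m - 1 : ℕ) : ℝ) = (m : ℝ) - 1 := by rw [Nat.cast_sub hm]; simp
    rw [← h11]; exact_mod_cast this
  gcongr

end Pool.Agent.Shared.H87W
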